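import Pool.Agent.H73.GWQ.Stmts3

/-!
Row PTT: the graph of a parent function is a tree.
-/

set_option autoImplicit false

namespace GWQ

theorem ptt99_adj {W : Type*} {lv : W → ℕ} {par : W → W} {u v : W} (h : (PTG lv par).Adj u v) :
    (0 < lv u ∧ par u = v) ∨ (0 < lv v ∧ par v = u) := by
  have h' : u ≠ v ∧ ((0 < lv u ∧ par u = v) ∨ (0 < lv v ∧ par v = u)) := by
    simpa [PTG, SimpleGraph.fromRel_adj] using h
  exact h'.2

theorem ptt99_adj_par {W : Type*} {lv : W → ℕ} {par : W → W}
    (hp : ∀ w, 0 < lv w → lv (par w) + 1 = lv w) {w : W} (h : 0 < lv w) :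
    (PTG lv par).Adj w (par w) := by
  unfold PTG
  rw [SimpleGraph.fromRel_adj]
  refine ⟨fun he => ?_, Or.inl ⟨h, rfl⟩⟩
  have h1 := hp w h
  rw [← he] at h1
  omega

theorem PTT (W : Type*) : PTTStmt W := by
  classical
  intro lv par r hr hp
  have hreach : ∀ n : ℕ, ∀ w : W, lv w = n → (PTG lv par).Reachable w r := by
    intro n
    induction n with
    | zero =>
      intro w hw
      rw [hr w hw]
    | succ n ih =>
      intro w hw
      have h0 : 0 < lv w := by omega
      have h1 := hp w h0
      exact (ptt99_adj_par hp h0).reachable.trans (ih (par w) (by omega))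
  have hconn : (PTG lv par).Connected := by
    haveI : Nonempty W := ⟨r⟩
    refine ⟨fun a b => ?_⟩
    exact (hreach _ a rfl).trans (hreach _ b rfl).symm
  refine ⟨hconn, ?_⟩
  intro v c hc
  -- a vertex of maximal level
  obtain ⟨w, hw, hmax⟩ : ∃ w ∈ c.support, ∀ x ∈ c.support, lv x ≤ lv w := by
    have hne : c.support.toFinset.Nonempty :=
      ⟨v, List.mem_toFinset.2 (SimpleGraph.Walk.start_mem_support c)⟩
    obtain ⟨w, hw, h⟩ := Finset.exists_max_image c.support.toFinset lv hne
    exact ⟨w, List.mem_toFinset.1 hw, fun x hx => h x (List.mem_toFinset.2 hx)⟩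
  have hc' := hc.rotate hw
  have hmax' : ∀ x ∈ (c.rotate w hw).support, lv x ≤ lv w := fun x hx =>
    hmax x ((SimpleGraph.Walk.mem_support_rotate_iff c w hw).1 hx)
  have hnil := hc'.not_nil
  have h1 : (PTG lv par).Adj w (c.rotate w hw).snd := SimpleGraph.Walk.adj_snd hnil
  have h2 : (PTG lv par).Adj (c.rotate w hw).penultimate w := SimpleGraph.Walk.adj_penultimate hnil
  have m1 : lv (c.rotate w hw).snd ≤ lv w := hmax' _ (SimpleGraph.Walk.getVert_mem_support _ _)
  have m2 : lv (c.rotate w hw).penultimate ≤ lv w :=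
    hmax' _ (SimpleGraph.Walk.getVert_mem_support _ _)
  have e1 : par w = (c.rotate w hw).snd := by
    rcases ptt99_adj h1 with h | ⟨h, h'⟩
    · exact h.2
    · have h3 := hp _ h
      rw [h'] at h3
      omega
  have e2 : par w = (c.rotate w hw).penultimate := by
    rcases ptt99_adj h2 with ⟨h, h'⟩ | h
    · have h3 := hp _ h
      rw [h'] at h3
      omega
    · exact h.2
  exact hc'.snd_ne_penultimate (e1.symm.trans e2)

end GWQ
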